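import Pool.Agent.Y881.CS.Stm

set_option autoImplicit false

/-! Fourier side of the Sanders argument (S_FOU). -/

namespace Pool.Agent.Y369.CS

open Finset Pool.Agent.TH858 Pool.Agent.TH858.GP Pool.Agent.Y881.CS

variable {N : ℕ} [NeZero N]

lemma delta (z : ZMod N) : ∑ g : ZMod N, ψ (g * z) = if z = 0 then (N : ℂ) else 0 := by
  have := AddChar.sum_mulShift (R' := ℂ) z (ZMod.isPrimitive_stdAddChar N)
  rw [ZMod.card] at this
  rw [this]
  split_ifs <;> simp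

lemma psi_sum {k : ℕ} (s : Finset (Fin k)) (f : Fin k → ZMod N) :
    ψ (∑ i ∈ s, f i) = ∏ i ∈ s, ψ (f i) := by
  induction s using Finset.induction_on with
  | empty => simp
  | insert i s hi ih => rw [sum_insert hi, prod_insert hi, ψ_add, ih]

/-- coefficients -/
noncomputable def cc (A B : Finset (ZMod N)) (g : ZMod N) : ℂ :=
  ((wt A g : ℝ) : ℂ) * ∑ b ∈ B, ψ (g * (-b))

lemma cc_norm (A B : Finset (ZMod N)) (g : ZMod N) : ‖cc A B g‖ ≤ wt A g * B.card := by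
  unfold cc
  rw [norm_mul, Complex.norm_real, Real.norm_of_nonneg (wt_nonneg A g)]
  apply mul_le_mul_of_nonneg_left _ (wt_nonneg A g)
  refine (norm_sum_le _ _).trans ?_
  simp

lemma pr_expand (A B : Finset (ZMod N)) (hA : A.Nonempty) (t : ZMod N) :
    ((N * (A.card : ℝ) ^ 2 * pr A B t : ℝ) : ℂ) = ∑ g : ZMod N, ψ (g * t) * cc A B g := by
  have hAp : (A.card : ℝ) ≠ 0 := by exact_mod_cast hA.card_pos.ne'
  have h1 : (A.card : ℝ) ^ 2 * pr A B t = ∑ a' ∈ A, ((A.filter fun a => a + (t - a') ∈ B).card : ℝ) := by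
    unfold pr gg
    rw [← sum_div]
    field_simp
  have h2 : ∀ a' : ZMod N, ((A.filter fun a => a + (t - a') ∈ B).card : ℂ) =
      ∑ a ∈ A, ∑ b ∈ B, (if a + (t - a') - b = 0 then (1 : ℂ) else 0) := by
    intro a'
    rw [card_filter]
    push_cast
    apply sum_congr rfl
    intro a _
    simp only [sub_eq_zero]
    rw [sum_ite_eq B (a + (t - a')) (fun _ => (1 : ℂ))]
  have h3 : ((N * (A.card : ℝ) ^ 2 * pr A B t : ℝ) : ℂ) =
      (N : ℂ) * ∑ a' ∈ A, ∑ a ∈ A, ∑ b ∈ B, (if a + (t - a') - b = 0 then (1 : ℂ) else 0) := by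
    rw [mul_assoc, h1]
    push_cast
    congr 1
    apply sum_congr rfl
    intro a' _
    exact h2 a'
  rw [h3, mul_sum]
  have h4 : ∀ a' ∈ A, (N : ℂ) * ∑ a ∈ A, ∑ b ∈ B, (if a + (t - a') - b = 0 then (1 : ℂ) else 0) =
      ∑ g : ZMod N, ∑ a ∈ A, ∑ b ∈ B, ψ (g * (a + (t - a') - b)) := by
    intro a' _
    have e : ∑ g : ZMod N, ∑ a ∈ A, ∑ b ∈ B, ψ (g * (a + (t - a') - b)) =
        ∑ a ∈ A, ∑ b ∈ B, ∑ g : ZMod N, ψ (g * (a + (t - a') - b)) := by
      rw [sum_comm]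
      apply sum_congr rfl
      intro a _
      rw [sum_comm]
    rw [e, mul_sum]
    apply sum_congr rfl
    intro a _
    rw [mul_sum]
    apply sum_congr rfl
    intro b _
    rw [delta]
    split_ifs <;> simp
  rw [sum_congr rfl h4, sum_comm]
  apply sum_congr rfl
  intro g _
  have h5 : ∑ a' ∈ A, ∑ a ∈ A, ∑ b ∈ B, ψ (g * (a + (t - a') - b)) =
      ∑ p ∈ A ×ˢ A, ∑ b ∈ B, ψ (g * t) * (ψ (g * (p.1 - p.2)) * ψ (g * (-b))) := by
    rw [sum_comm, ← sum_product' A A (fun a a' => ∑ b ∈ B, ψ (g * (a + (t - a') - b)))]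
    apply sum_congr rfl
    intro p _
    apply sum_congr rfl
    intro b _
    rw [← ψ_add, ← ψ_add]
    congr 1
    ring
  unfold cc
  rw [h5, wt_expand, sum_mul_sum, mul_sum]
  apply sum_congr rfl
  intro p _
  rw [mul_sum]

lemma av_expand (k : ℕ) (A B T : Finset (ZMod N)) (hA : A.Nonempty) (x : ZMod N) :
    ((N * (A.card : ℝ) ^ 2 * ∑ s ∈ Fintype.piFinset (fun _ : Fin k => T ×ˢ T),
      pr A B (x + ∑ i, ((s i).1 - (s i).2)) : ℝ) : ℂ) =
      ∑ g : ZMod N, ψ (g * x) * cc A B g * ((wt T g : ℝ) : ℂ) ^ k := by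
  rw [mul_sum, Complex.ofReal_sum]
  have h1 : ∀ s ∈ Fintype.piFinset (fun _ : Fin k => T ×ˢ T),
      ((N * (A.card : ℝ) ^ 2 * pr A B (x + ∑ i, ((s i).1 - (s i).2)) : ℝ) : ℂ) =
      ∑ g : ZMod N, ψ (g * x) * cc A B g * ∏ i, ψ (g * ((s i).1 - (s i).2)) := by
    intro s _
    rw [pr_expand A B hA]
    apply sum_congr rfl
    intro g _
    have e : ψ (g * (x + ∑ i, ((s i).1 - (s i).2))) =
        ψ (g * x) * ∏ i, ψ (g * ((s i).1 - (s i).2)) := by
      rw [mul_add, ψ_add, mul_sum]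
      congr 1
      exact psi_sum _ _
    rw [e]
    ring
  rw [sum_congr rfl h1, sum_comm]
  apply sum_congr rfl
  intro g _
  rw [← mul_sum]
  congr 1
  rw [sum_prod_piFinset (T ×ˢ T) (fun (_ : Fin k) p => ψ (g * (p.1 - p.2)))]
  rw [wt_expand]
  simp

lemma wt_le (T : Finset (ZMod N)) (g : ZMod N) : wt T g ≤ (T.card : ℝ) ^ 2 := by
  unfold wt
  apply pow_le_pow_left₀ (norm_nonneg _)
  refine (norm_sum_le _ _).trans ?_
  simp

theorem t_FOU : S_FOU := by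
  intro N _ A B T M k hA hT hM hB hk x hx
  have hNp : (0 : ℝ) < N := Nat.cast_pos.mpr (NeZero.pos N)
  have hAp : (0 : ℝ) < A.card := by exact_mod_cast hA.card_pos
  have hTp : (0 : ℝ) < T.card := by exact_mod_cast hT.card_pos
  set F : ZMod N → ℝ := fun y => ∑ s ∈ Fintype.piFinset (fun _ : Fin k => T ×ˢ T),
      pr A B (y + ∑ i, ((s i).1 - (s i).2)) with hF
  have h1 : ((N * (A.card : ℝ) ^ 2 * (F x - F 0) : ℝ) : ℂ) =
      ∑ g : ZMod N, (ψ (g * x) - 1) * cc A B g * ((wt T g : ℝ) : ℂ) ^ k := by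
    rw [mul_sub, Complex.ofReal_sub, av_expand k A B T hA x, av_expand k A B T hA 0,
      ← sum_sub_distrib]
    apply sum_congr rfl
    intro g _
    rw [mul_zero, ψ_zero]
    ring
  obtain ⟨τ, hτ⟩ : ∃ τ : ℝ, τ = 1 / (8 * M) + 2 / 4 ^ k := ⟨_, rfl⟩
  have h2 : ∀ g : ZMod N, ‖(ψ (g * x) - 1) * cc A B g * ((wt T g : ℝ) : ℂ) ^ k‖ ≤
      wt A g * (B.card * (((T.card : ℝ) ^ 2) ^ k * τ)) := by
    intro g
    have hw := wt_nonneg T g
    rw [norm_mul, norm_mul, norm_pow, Complex.norm_real, Real.norm_of_nonneg hw]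
    have h3 : ‖ψ (g * x) - 1‖ * wt T g ^ k ≤ ((T.card : ℝ) ^ 2) ^ k * τ := by
      have e1 : 0 ≤ 1 / (8 * M) := by positivity
      have e2 : (0 : ℝ) ≤ 2 / 4 ^ k := by positivity
      have e3 : 0 < ((T.card : ℝ) ^ 2) ^ k := by positivity
      by_cases hc : (T.card : ℝ) ^ 2 ≤ 4 * wt T g
      · calc ‖ψ (g * x) - 1‖ * wt T g ^ k ≤ 1 / (8 * M) * ((T.card : ℝ) ^ 2) ^ k :=
              mul_le_mul (hx g hc) (pow_le_pow_left₀ hw (wt_le T g) k) (by positivity) e1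
          _ ≤ _ := by
              rw [hτ]
              nlinarith
      · push Not at hc
        have h5 : wt T g ≤ (T.card : ℝ) ^ 2 / 4 := by linarith
        have h6 : ‖ψ (g * x) - 1‖ ≤ 2 := by
          calc ‖ψ (g * x) - 1‖ ≤ ‖ψ (g * x)‖ + ‖(1 : ℂ)‖ := norm_sub_le _ _
            _ = 2 := by rw [ψ_norm, norm_one]; norm_num
        calc ‖ψ (g * x) - 1‖ * wt T g ^ k ≤ 2 * ((T.card : ℝ) ^ 2 / 4) ^ k :=
              mul_le_mul h6 (pow_le_pow_left₀ hw h5 k) (by positivity) (by norm_num)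
          _ = ((T.card : ℝ) ^ 2) ^ k * (2 / 4 ^ k) := by
              rw [div_pow]; ring
          _ ≤ _ := by
              rw [hτ]
              nlinarith
    calc ‖ψ (g * x) - 1‖ * ‖cc A B g‖ * wt T g ^ k =
        ‖cc A B g‖ * (‖ψ (g * x) - 1‖ * wt T g ^ k) := by ring
      _ ≤ (wt A g * B.card) * (((T.card : ℝ) ^ 2) ^ k * τ) :=
          mul_le_mul (cc_norm A B g) h3 (by positivity)
            (mul_nonneg (wt_nonneg A g) (Nat.cast_nonneg _))
      _ = _ := by ring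
  have h3 : N * (A.card : ℝ) ^ 2 * |F x - F 0| ≤
      (N * A.card) * (B.card * (((T.card : ℝ) ^ 2) ^ k * τ)) := by
    have e1 : N * (A.card : ℝ) ^ 2 * |F x - F 0| =
        ‖((N * (A.card : ℝ) ^ 2 * (F x - F 0) : ℝ) : ℂ)‖ := by
      rw [Complex.norm_real, Real.norm_eq_abs, abs_mul,
        abs_of_pos (show (0 : ℝ) < N * (A.card : ℝ) ^ 2 by positivity)]
    rw [e1, h1]
    refine (norm_sum_le _ _).trans ((sum_le_sum fun g _ => h2 g).trans ?_)
    rw [← sum_mul, sum_wt]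
  have h4 : av k T (pr A B) x - av k T (pr A B) 0 = (F x - F 0) / ((T.card : ℝ) ^ 2) ^ k := by
    unfold av
    rw [← sub_div]
  rw [h4, abs_div, abs_of_pos (show (0 : ℝ) < ((T.card : ℝ) ^ 2) ^ k by positivity),
    div_le_iff₀ (by positivity)]
  have h5 : M * τ ≤ 1 / 4 := by
    rw [hτ, mul_add]
    have e1 : M * (1 / (8 * M)) = 1 / 8 := by field_simp
    have e2 : M * (2 / 4 ^ k) ≤ 1 / 8 := by
      rw [mul_div_assoc', div_le_iff₀ (by positivity)]
      linarith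
    linarith
  have hτ0 : 0 ≤ τ := by rw [hτ]; positivity
  have h6 : |F x - F 0| ≤ (B.card : ℝ) / A.card * τ * ((T.card : ℝ) ^ 2) ^ k := by
    have e : (N * A.card) * (B.card * (((T.card : ℝ) ^ 2) ^ k * τ)) =
        N * (A.card : ℝ) ^ 2 * ((B.card : ℝ) / A.card * τ * ((T.card : ℝ) ^ 2) ^ k) := by
      field_simp
    rw [e] at h3
    exact le_of_mul_le_mul_left h3 (by positivity)
  have h7 : (B.card : ℝ) / A.card ≤ M := by
    rw [div_le_iff₀ hAp]; exact hB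
  calc |F x - F 0| ≤ (B.card : ℝ) / A.card * τ * ((T.card : ℝ) ^ 2) ^ k := h6
    _ ≤ M * τ * ((T.card : ℝ) ^ 2) ^ k := by gcongr
    _ ≤ 1 / 4 * ((T.card : ℝ) ^ 2) ^ k := by gcongr

end Pool.Agent.Y369.CS
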